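import Pool.Agent.H41.CP.Stmts

set_option autoImplicit false

/-! Two row blocks of the same triple (helper for MP_36eb6d_co). -/

namespace Pool.Agent.H764.CP.RR

open Pool.Agent.H41.CP

theorem basic {F : Fin 3 → P6} {g : P6} {S T : Finset (Fin 6)} (h : RB F g S T) {x : Fin 6}
    (hx : x ∈ S) :
    g x ∈ T ∧ (∀ i, F i x ∈ T) ∧ (∀ i, g x ≠ F i x) ∧ (Function.Injective fun i => F i x) ∧
      ∀ t ∈ T, t = g x ∨ ∃ i, t = F i x := by
  obtain ⟨_, hT, hh⟩ := h
  have h1 := hh x hx
  have hle : (Finset.univ.image fun i => F i x).card ≤ 3 := by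
    refine Finset.card_image_le.trans ?_
    simp
  have hg : g x ∉ Finset.univ.image fun i => F i x := by
    intro hm
    rw [Finset.insert_eq_of_mem hm] at h1
    rw [← h1] at hT
    omega
  have hc : (Finset.univ.image fun i => F i x).card = 3 := by
    have := Finset.card_insert_of_notMem hg
    rw [h1] at this
    omega
  refine ⟨?_, ?_, ?_, ?_, ?_⟩
  · rw [← h1]; exact Finset.mem_insert_self _ _
  · intro i
    rw [← h1]
    exact Finset.mem_insert_of_mem (Finset.mem_image_of_mem _ (Finset.mem_univ i))
  · intro i hi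
    exact hg (Finset.mem_image.mpr ⟨i, Finset.mem_univ i, hi.symm⟩)
  · have h2 : (Finset.univ.image fun i => F i x).card = (Finset.univ : Finset (Fin 3)).card := by
      rw [hc]; simp
    have h3 := Finset.card_image_iff.mp h2
    intro a b hab
    exact h3 (by simp) (by simp) hab
  · intro t ht
    rw [← h1] at ht
    rcases Finset.mem_insert.mp ht with h | h
    · exact Or.inl h
    · obtain ⟨i, _, hi⟩ := Finset.mem_image.mp h
      exact Or.inr ⟨i, hi.symm⟩

theorem column {F : Fin 3 → P6} {g : P6} {S T : Finset (Fin 6)} (h : RB F g S T) {c : Fin 6}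
    (hc : c ∈ T) : 2 ≤ (Finset.univ.filter fun i : Fin 3 => (F i)⁻¹ c ∈ S).card := by
  have h1 : 2 ≤ (S.erase (g⁻¹ c)).card := by
    have := Finset.pred_card_le_card_erase (s := S) (a := g⁻¹ c)
    rw [h.1] at this
    omega
  have h2 : S.erase (g⁻¹ c) ⊆
      (Finset.univ.filter fun i : Fin 3 => (F i)⁻¹ c ∈ S).image fun i => (F i)⁻¹ c := by
    intro s hs
    obtain ⟨hne, hs⟩ := Finset.mem_erase.mp hs
    rcases (basic h hs).2.2.2.2 c hc with h3 | ⟨i, hi⟩
    · exact absurd (by rw [h3]; simp) hne
    · refine Finset.mem_image.mpr ⟨i, ?_, ?_⟩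
      · simp only [Finset.mem_filter, Finset.mem_univ, true_and]
        rw [hi]; simpa using hs
      · rw [hi]; simp
  exact h1.trans ((Finset.card_le_card h2).trans Finset.card_image_le)

theorem Teq {F : Fin 3 → P6} {g g' : P6} {S T S' T' : Finset (Fin 6)} (h : RB F g S T)
    (h' : RB F g' S' T') : T = T' := by
  by_contra hne
  have hT := h.2.1
  have hT' := h'.2.1
  have hS := h.1
  have hS' := h'.1
  have hlt : (T ∩ T').card ≤ 3 := by
    by_contra hcon
    have h4 : 4 ≤ (T ∩ T').card := by omega
    have e1 : T ∩ T' = T := Finset.eq_of_subset_of_card_le Finset.inter_subset_left (by omega)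
    have e2 : T ∩ T' = T' := Finset.eq_of_subset_of_card_le Finset.inter_subset_right (by omega)
    exact hne (e1.symm.trans e2)
  have hui := Finset.card_union_add_card_inter T T'
  have hu6 : (T ∪ T').card ≤ 6 := by
    simpa using Finset.card_le_univ (T ∪ T')
  -- on common rows
  have hcom : ∀ x ∈ S ∩ S', (T ∩ T').card = 3 ∧ g x ∈ T ∧ g x ∉ T' := by
    intro x hx
    obtain ⟨hx1, hx2⟩ := Finset.mem_inter.mp hx
    obtain ⟨a1, a2, a3, a4, a5⟩ := basic h hx1
    obtain ⟨b1, b2, b3, b4, b5⟩ := basic h' hx2
    have hsub : (Finset.univ.image fun i => F i x) ⊆ T ∩ T' := by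
      intro t ht
      obtain ⟨i, _, rfl⟩ := Finset.mem_image.mp ht
      exact Finset.mem_inter.mpr ⟨a2 i, b2 i⟩
    have hc3 : (Finset.univ.image fun i => F i x).card = 3 := by
      rw [Finset.card_image_of_injective _ a4]; simp
    have h3 : (T ∩ T').card = 3 := by
      have := Finset.card_le_card hsub
      omega
    have heq := Finset.eq_of_subset_of_card_le hsub (by omega)
    refine ⟨h3, a1, fun hg => ?_⟩
    have : g x ∈ T ∩ T' := Finset.mem_inter.mpr ⟨a1, hg⟩
    rw [← heq] at this
    obtain ⟨i, _, hi⟩ := Finset.mem_image.mp this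
    exact a3 i hi.symm
  rcases Nat.lt_or_ge (S ∩ S').card 2 with hlt2 | hge2
  · rcases Nat.eq_zero_or_pos (S ∩ S').card with h0 | hpos
    · -- no common row
      have hne' : (T ∩ T').Nonempty := by
        rw [← Finset.card_pos]; omega
      obtain ⟨c, hc⟩ := hne'
      obtain ⟨hc1, hc2⟩ := Finset.mem_inter.mp hc
      have c1 := column h hc1
      have c2 := column h' hc2
      have c3 : ((Finset.univ.filter fun i : Fin 3 => (F i)⁻¹ c ∈ S) ∪
          (Finset.univ.filter fun i : Fin 3 => (F i)⁻¹ c ∈ S')).card ≤ 3 := by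
        simpa using Finset.card_le_univ ((Finset.univ.filter fun i : Fin 3 => (F i)⁻¹ c ∈ S) ∪
          (Finset.univ.filter fun i : Fin 3 => (F i)⁻¹ c ∈ S'))
      have c4 := Finset.card_union_add_card_inter
        (Finset.univ.filter fun i : Fin 3 => (F i)⁻¹ c ∈ S)
        (Finset.univ.filter fun i : Fin 3 => (F i)⁻¹ c ∈ S')
      have c5 : 0 < ((Finset.univ.filter fun i : Fin 3 => (F i)⁻¹ c ∈ S) ∩
          (Finset.univ.filter fun i : Fin 3 => (F i)⁻¹ c ∈ S')).card := by omega
      obtain ⟨i, hi⟩ := Finset.card_pos.mp c5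
      simp only [Finset.mem_inter, Finset.mem_filter, Finset.mem_univ, true_and] at hi
      have : (F i)⁻¹ c ∈ S ∩ S' := Finset.mem_inter.mpr hi
      rw [Finset.card_eq_zero.mp h0] at this
      simp at this
    · -- one common row
      obtain ⟨x, hx⟩ := Finset.card_pos.mp hpos
      obtain ⟨h3, hg1, hg2⟩ := hcom x hx
      have hxS := (Finset.mem_inter.mp hx).1
      have key : ∀ i, (F i)⁻¹ (g x) ∈ S := by
        intro i
        have i1 : (S ∪ S').image (F i) ⊆ T ∪ T' := by
          intro t ht
          obtain ⟨s, hs, rfl⟩ := Finset.mem_image.mp ht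
          rcases Finset.mem_union.mp hs with hs | hs
          · exact Finset.mem_union_left _ ((basic h hs).2.1 i)
          · exact Finset.mem_union_right _ ((basic h' hs).2.1 i)
        have i2 : ((S ∪ S').image (F i)).card = (S ∪ S').card :=
          Finset.card_image_of_injective _ (F i).injective
        have i3 := Finset.card_union_add_card_inter S S'
        have i4 : (S ∪ S').image (F i) = T ∪ T' :=
          Finset.eq_of_subset_of_card_le i1 (by omega)
        have i5 : g x ∈ (S ∪ S').image (F i) := by
          rw [i4]; exact Finset.mem_union_left _ hg1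
        obtain ⟨s, hs, hsg⟩ := Finset.mem_image.mp i5
        have hsx : (F i)⁻¹ (g x) = s := by rw [← hsg]; simp
        rw [hsx]
        rcases Finset.mem_union.mp hs with hs | hs
        · exact hs
        · exfalso
          apply hg2
          rw [← hsg]
          exact (basic h' hs).2.1 i
      have inj : Function.Injective fun i => (F i)⁻¹ (g x) := by
        intro i j hij
        have hij' : (F i)⁻¹ (g x) = (F j)⁻¹ (g x) := hij
        have hs := key i
        have := (basic h hs).2.2.2.1
        apply this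
        show F i ((F i)⁻¹ (g x)) = F j ((F i)⁻¹ (g x))
        rw [hij']
        rw [← hij']
        conv_rhs => rw [hij']
        simp
      have im : (Finset.univ.image fun i => (F i)⁻¹ (g x)) = S := by
        apply Finset.eq_of_subset_of_card_le
        · intro t ht
          obtain ⟨i, _, rfl⟩ := Finset.mem_image.mp ht
          exact key i
        · rw [Finset.card_image_of_injective _ inj, hS]; simp
      rw [← im] at hxS
      obtain ⟨i, _, hi⟩ := Finset.mem_image.mp hxS
      have hxS' := (Finset.mem_inter.mp hx).1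
      apply (basic h hxS').2.2.1 i
      conv_rhs => rw [← hi]
      simp
  · -- two common rows
    obtain ⟨x, hx, y, hy, hxy⟩ := Finset.one_lt_card.mp (by omega : 1 < (S ∩ S').card)
    obtain ⟨h3, hx1, hx2⟩ := hcom x hx
    obtain ⟨_, hy1, hy2⟩ := hcom y hy
    have hd : (T \ T').card = 1 := by
      have := Finset.card_sdiff_add_card_inter T T'
      omega
    obtain ⟨a, ha⟩ := Finset.card_eq_one.mp hd
    have m1 : g x ∈ T \ T' := Finset.mem_sdiff.mpr ⟨hx1, hx2⟩
    have m2 : g y ∈ T \ T' := Finset.mem_sdiff.mpr ⟨hy1, hy2⟩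
    rw [ha, Finset.mem_singleton] at m1 m2
    exact hxy (g.injective (m1.trans m2.symm))

theorem rr : S_RR := by
  intro F g g' S T S' T' h h'
  have hTT := Teq h h'
  subst hTT
  refine ⟨rfl, ?_, ?_⟩
  · have hle : (S ∪ S').card ≤ 4 := by
      rw [← h.2.1, ← Finset.card_image_of_injective (S ∪ S') (F 0).injective]
      apply Finset.card_le_card
      intro t ht
      obtain ⟨s, hs, rfl⟩ := Finset.mem_image.mp ht
      rcases Finset.mem_union.mp hs with hs | hs
      · exact (basic h hs).2.1 0
      · exact (basic h' hs).2.1 0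
    have hui := Finset.card_union_add_card_inter S S'
    have hS := h.1
    have hS' := h'.1
    have hi3 : (S ∩ S').card ≤ 3 := hS ▸ Finset.card_le_card Finset.inter_subset_left
    rcases Nat.lt_or_ge (S ∩ S').card 3 with hlt | hge
    · right
      refine ⟨by omega, by omega, h.2.1, ?_⟩
      intro x hx
      rcases Finset.mem_union.mp hx with hx | hx
      · exact ⟨(basic h hx).2.1, (basic h hx).2.2.2.1⟩
      · exact ⟨(basic h' hx).2.1, (basic h' hx).2.2.2.1⟩
    · left
      have e1 : S ∩ S' = S := Finset.eq_of_subset_of_card_le Finset.inter_subset_left (by omega)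
      have e2 : S ∩ S' = S' := Finset.eq_of_subset_of_card_le Finset.inter_subset_right (by omega)
      exact e1.symm.trans e2
  · intro x hx
    obtain ⟨hx1, hx2⟩ := Finset.mem_inter.mp hx
    rcases (basic h' hx2).2.2.2.2 (g x) (basic h hx1).1 with e | ⟨i, hi⟩
    · exact e
    · exact absurd hi ((basic h hx1).2.2.1 i)

end Pool.Agent.H764.CP.RR
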